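import Pool.Agent.R552.Fan.Geo

/-!
# Two-layer fan-planar graphs can be recognised in polynomial time

In a fan-planar drawing of a connected graph on two layers consider the pairs `(t, b)` of an upper and
a lower vertex whose segment is not crossed by an edge. They form a chain, and between two consecutive
pairs `(t, b)`, `(t', b')` the drawing is of one of four simple kinds: no upper vertices strictly in
between; no lower ones; all of those in between are leaves at `t` or `b`; all are leaves at `t'` or
`b'`. Conversely every chain of such blocks gives a drawing. If leaves at the same vertex are
identified, the part on the left of a pair is a union of at most six components of the graph without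
`t` and `b`, so the algorithm is a search in a graph with at most `n ^ 8` states; it is used for every
component of the graph.
-/

namespace Pool.Agent.Results.MP_f9c574_lc.TwoLayerFanPlanarInP

open Pool.Agent.NPC Pool.Agent.R552.Fan

/-- **2-layer fan-planarity is in `P`**: there is a polynomial-time algorithm that decides, for an
arbitrary graph given by its adjacency matrix, whether it is 2-layer fan-planar. -/
theorem result : InPP TwoLayerFanPlanarGraph := fan_inPP

end Pool.Agent.Results.MP_f9c574_lc.TwoLayerFanPlanarInP
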